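import Pool.Agent.Helper64K9.Benzel.Main

/-!
# Type 103 tilings of benzels (MP_59b97c_co, Q1)

Every `(a, b)`-benzel with `I(a, b) ≥ 0` can be tiled by right stones and bones. The tiling is
explicit. In the main case (`a + b` divisible by three) it consists of spiral layers, each made
of three strips of parallel bones, around a triangle of right stones.
-/

set_option autoImplicit false

namespace Pool.Agent.Results.MP_59b97c_co.Type103TilingsExist

open Helper64K9.Benzel

/-- For all integers `a, b` with `2 ≤ a ≤ 2 * b`, `2 ≤ b ≤ 2 * a` and `I(a, b) ≥ 0` the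
`(a, b)`-benzel has a type 103 tiling. -/
theorem result (a b : ℤ) (ha : 2 ≤ a) (hab : a ≤ 2 * b) (hb : 2 ≤ b) (hba : b ≤ 2 * a)
    (hI : 0 ≤ clInv a b) : ∃ 𝒯 : Set (Set Pt), IsTiling103 (benzel a b) 𝒯 :=
  main ha hab hb hba hI

end Pool.Agent.Results.MP_59b97c_co.Type103TilingsExist
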